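import Pool.Agent.H60.FM.Bridge

/-!
# The standard conjecture of Hodge type for the varieties cut out of products of K3 surfaces

Let `X 1, …, X r` be varieties of K3 type over a finite field (K3 surfaces of finite height, cubic
fourfolds, elliptic curves, ...) whose Frobenius numbers are free in the sense of the library
(`FreeFamily`; for K3 surfaces of Picard number `ρ`, `d = 11 - ρ / 2` and height `m`, for instance:
`m` odd, except for four pairs `(d, m)`; or `d` prime and all norms of the number to CM subfields of
infinite order; or a Galois group with all changes of sign). Let `M` be a smooth projective variety
over the algebraic closure, with an ample divisor `D`, such that `(M, D)` and some products `Y b` of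
copies of the `X i` (with ample divisors) lift to characteristic zero, and such that the cohomology
of the lift `M'` is embedded in the sum of the (twisted) cohomology groups of the lifts `Y' b` by
algebraic cycles on the `M' × Y' b`; equivalently, the homological motive of `M'` is a direct
summand of a sum of twists of those of the `Y' b`. Suppose that the Lefschetz standard conjecture
holds for `M'` and the `Y' b`.

**Theorem.** The standard conjecture of Hodge type holds for `M` and `D`, in all codimensions, and
homological and numerical equivalence agree on `M`. Moreover, if `U` is any smooth projective
variety with a divisor satisfying the Lefschetz standard conjecture and the conjecture of Hodge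
type, whose Frobenius slopes are products of slopes in Galois fields with totally real intersections
with the CM fields of the `X i`, then the two conjectures hold for `U × M`. Neither `U` nor the
cycles on `M` or `U × M` are supposed to lift.

Examples of `M` are, for K3 surfaces `S` with free Frobenius number, the Hilbert schemes of points,
and the smooth projective moduli spaces of stable sheaves on `S` (of any dimension, by the theorems
of Markman and Bülles the motive of such a moduli space in characteristic zero is a direct summand
of a sum of twists of motives of powers of `S'`, and the Lefschetz standard conjecture holds), and
all products and liftable polarizations of them, the varieties of lines of cubic fourfolds, and so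
on. These `M` have algebraic cycles which do not lift, in many codimensions.

The proof combines the transfer theorem for liftable correspondences (`LiftableCorrespondences`)
with the theorem of the library on the products of the `X i` (`ProductsOfK3Type`).
-/

open CategoryTheory AlgebraicGeometry

universe u v u' v' w

namespace Pool.Agent.Results.MP_361a6f_ag.FreeMotives

open Pool.Agent.H60.FM Pool.Agent.W534

/-- **The standard conjecture of Hodge type for the varieties cut out, by liftable cycles, of
products of varieties of K3 type with free Frobenius numbers.** -/
theorem result (T' : Theory.{u', v'}) (T : Theory.{u, v}) [IsAlgClosed T.W.K] (σ : CoefIso T' T)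
    (p : ℕ) [Fact p.Prime] (Φ : FrobSystem T.W p) (ι₀ : AlgebraicClosure ℚ →+* PadicAlgCl p)
    (F : FreeFamily T Φ ι₀) {ι κ : Type w} [Finite κ] (P' : ι → T'.Pol) (P : ι → T.Pol)
    (S : Specialization σ P' P) (hL : ∀ i, T'.IsLefschetz (P' i))
    (o : ι) (hH : ∀ i, T'.HT (T'.prod (P' o) (P' i)))
    (τ : κ → ι) (hC : T'.IsCutOut (P' o) (fun b => P' (τ b)))
    (hF : ∀ b, F.IsProduct (P (τ b))) :
    (T.HT (P o) ∧ T.HomNum (P o)) ∧
    ∀ U : T.Pol, T.IsLefschetz U → F.IsIndependent U → T.HT U →
      T.HT (T.prod U (P o)) ∧ T.HomNum (T.prod U (P o)) :=
  freeMotives T' T σ p Φ ι₀ F P' P S hL o hH τ hC hF

end Pool.Agent.Results.MP_361a6f_ag.FreeMotives
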