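import Pool.Agent.H60.HS.Main

/-!
# The standard conjecture of Hodge type transfers along liftable correspondences

Let `k` be an algebraically closed field of characteristic `p`, `M` and `Y a` (`a` in a finite set)
smooth projective varieties over `k` with ample divisors, which lift to characteristic zero together
with the divisors, and let `z' a` be algebraic correspondences from the lift `M'` to the lifts
`Y' a`, of arbitrary degrees. Suppose that the Lefschetz standard conjecture holds for the lifts.

**Theorem.** (1) If the `z' a` are jointly injective on `H^{2j}(M')` then the conjecture of Hodge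
type in codimension `j` for `M` (and the equality of homological and numerical equivalence in this
codimension) follows from the conjecture of Hodge type for the `Y a`, in the codimensions at most
`min(l, dim (Y a) - l)`, where `H^{2l}(Y a)` is the target of the correspondence.

(2) If the `z' a` are jointly injective on the whole cohomology of `M'`, for instance if the motive
of `M'` is a direct summand of the sum of twists of the motives of the `Y' a`, then, for **every**
smooth projective variety `Z` over `k` satisfying the Lefschetz standard conjecture (`Z` need not
lift, and the classes of cycles on `Z × M` and `Z × Y a` need not lift), the conjecture of Hodge type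
for `Z × M` follows from the conjecture for the `Z × Y a`, in a corresponding range of codimensions.

The conjecture of Hodge type for the `M' × M'` and `M' × Y' a` over the field `k'` is supposed; it
is true in characteristic zero (in the theorem `k'` may be any field).

By the Hodge index theorem (the case of divisors, quoted in the question) the hypotheses on the
`Y a` are satisfied if in (1) the targets of the correspondences are the groups `H^0`, `H^2`,
`H^{2d-2}`, `H^{2d}` of the varieties `Y a`, of any dimension `d`, and if in (2)
`dim Z + dim Y a ≤ 3`. So the conjecture of Hodge type holds in codimension `j` for all liftable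
varieties for which `H^{2j}` is of level two, embedded by algebraic cycles in the `H^2` of liftable
varieties (for instance the cubic fourfolds, by the variety of lines), and in all codimensions for
all products `M₁ × M₂`, if the motives of (liftable) `M₁` and `M₂` are cut out of varieties of
dimension `l₁` and `l₂` with `l₁ + l₂ ≤ 3`, such as the product of a cubic threefold, or of any
intersection of two quadrics of odd dimension, with any surface. Other applications: the conjecture
does not depend on the (liftable) polarization (take `Y = M` with another polarization and the
diagonal); it is invariant under liftable derived equivalences; the conjecture for the Hilbert schemes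
of points on liftable surfaces, and for the moduli spaces of vector bundles on curves, follows from
the one for the products of the surfaces, and for the powers of the curves.

The idea of the proof: let `*` be the Lefschetz star operator and `⟨x, y⟩ = tr (x · * y)`, and let `α`
be the sum of the `u† u` for the operators `u` induced by the correspondences `z' a`, where `u†` is the
adjoint. It is an algebraic correspondence. Over `k'` the conjecture of Hodge type shows that it is
annihilated by a rational polynomial `P` with simple positive roots. The special fibre has the same
`α` and `P`. For an algebraic class `x` on `M` we have `⟨α y, y⟩ = ∑ ⟨u y, u y⟩ ≥ 0` for all `y` in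
`ℚ[α] x`, by the conjecture for the `Y a`; as `1 = ∑ λ⁻¹ α ℓ_λ(α)²` (sum over the roots `λ` of `P`, with
the Lagrange polynomials `ℓ_λ`) we get `⟨x, x⟩ = ∑ λ⁻¹ ⟨α ℓ_λ(α) x, ℓ_λ(α) x⟩ > 0`.
-/

open CategoryTheory AlgebraicGeometry

universe u v u' v' w

namespace Pool.Agent.Results.MP_361a6f_ag.LiftableCorrespondences

open Pool.Agent.H914 Pool.Agent.H914.VarClass Pool.Agent.H914.VarClass.Obj
  Pool.Agent.H914.WeilCohomology Pool.Agent.H281R3.HT Pool.Agent.H60.HS

/-- **The standard conjecture of Hodge type transfers along liftable correspondences.** -/
theorem result {k' : Type u'} [Field k'] {𝒱' : VarClass k'} {ops' : CycleOps 𝒱'}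
    {k : Type u} [Field k] {𝒱 : VarClass k} {ops : CycleOps 𝒱}
    (W' : WeilCohomology.{u', v'} ops') (W : WeilCohomology.{u, v} ops) (σ : W'.K ≃+* W.K)
    {ι κ : Type w} [Finite κ] (P' : ι → Polarized 𝒱') (P : ι → Polarized 𝒱)
    (S : Specialization W' W σ P' P) (hL : ∀ i, IsLefschetz W' (P' i))
    (o : ι) (hH : ∀ i j, HodgeTypeIn W' ((P' o).prod ops' (P' i)) j)
    (τ : κ → ι) (C : CorrFamily (P' o) (fun b => P' (τ b))) :
    (∀ j, C.InjOn W' (W'.gr (P' o).X (2 * j)) →
      (∀ b i, i + (P o).X.dim ≤ j + C.p b → i + j + C.p b ≤ (P o).X.dim + (P (τ b)).X.dim →
        HodgeTypeIn W (P (τ b)) i) → StdIn W (P o) j) ∧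
    (C.InjOn W' ⊤ → ∀ Z : Polarized 𝒱, IsLefschetz W Z → ∀ j,
      (∀ b i, i + (P o).X.dim ≤ j + C.p b →
        i + j + C.p b ≤ Z.X.dim + (P o).X.dim + (P (τ b)).X.dim →
        HodgeTypeIn W (Z.prod ops (P (τ b))) i) → StdIn W (Z.prod ops (P o)) j) := by
  have := Fintype.ofFinite κ
  have h := main (hL o) (fun b => hL (τ b)) (fun j hj z hz => hH o j hj z hz)
    (fun b j hj z hz => hH (τ b) j hj z hz) (S.iso o) (fun b => S.iso (τ b)) (S.isDivisor o)
    (fun b => S.isDivisor (τ b)) (S.corr o o) (fun b => S.corr o (τ b)) (fun b => S.corr (τ b) o)
    (fun b => S.corr (τ b) (τ b)) C.p C.z C.isCyc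
  exact ⟨fun j hj => h.1 j hj, fun hj => h.2 (fun x hx => hj x trivial hx)⟩

end Pool.Agent.Results.MP_361a6f_ag.LiftableCorrespondences
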